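import Pool.Agent.MWKP.Stmts
import Pool.Agent.Helper42_MWK.SDB

/-!
# MWKP, row DBT: from a disagreement of type D to the word bit (every period)
-/

namespace Pool.Agent.MWKP.H32

open Pool.Agent.Helper14_MV Pool.Agent.Helper2_MV Pool.Agent.MWK Pool.Agent.MWKP

/-! ### powers -/

theorem pw_zero (X : List ℕ) : pw 0 X = [] := by simp [pw]

theorem pw_succ (k : ℕ) (X : List ℕ) : pw (k + 1) X = X ++ pw k X := by
  simp [pw, List.replicate_succ]

theorem pw_nil (k : ℕ) : pw k [] = [] := by simp [pw]

theorem pw_add (i j : ℕ) (X : List ℕ) : pw (i + j) X = pw i X ++ pw j X := by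
  simp only [pw, ← List.flatten_append, List.replicate_append_replicate]

theorem count_pw (k : ℕ) (X : List ℕ) (l : ℕ) : (pw k X).count l = k * X.count l := by
  induction k with
  | zero => simp [pw_zero]
  | succ k ih =>
    rw [pw_succ, List.count_append, ih]
    ring

theorem le_count_pw {k : ℕ} (hk : 1 ≤ k) (X : List ℕ) (l : ℕ) :
    X.count l ≤ (pw k X).count l := by
  rw [count_pw]
  exact Nat.le_mul_of_pos_left _ hk

theorem mem_pw {k : ℕ} {X : List ℕ} {l : ℕ} (h : l ∈ pw k X) : l ∈ X ∧ 1 ≤ k := by
  simp only [pw, List.mem_flatten, List.mem_replicate] at h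
  obtain ⟨a, ⟨h1, rfl⟩, h2⟩ := h
  exact ⟨h2, by omega⟩

theorem flatMap_rep (g : ℕ → List ℕ) (s x : ℕ) : (List.replicate s x).flatMap g = pw s (g x) := by
  induction s with
  | zero => simp [pw_zero]
  | succ s ih =>
    rw [List.replicate_succ, List.flatMap_cons, ih, pw_succ]

/-! ### words after the segments -/

/-- a word `E i` after every segment -/
def app (E : ℕ → List ℕ) : ℕ → List (List ℕ) → List (List ℕ)
  | _, [] => []
  | s, q :: qs => (q ++ E s) :: app E (s + 1) qs

theorem app_length (E : ℕ → List ℕ) : ∀ (qs : List (List ℕ)) (s : ℕ),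
    (app E s qs).length = qs.length
  | [], _ => rfl
  | q :: qs, s => by
    simp only [app, List.length_cons, app_length E qs (s + 1)]

theorem app_take_count (E : ℕ → List ℕ) : ∀ (qs : List (List ℕ)) (s j l : ℕ),
    ((qs.take j).flatten).count l ≤ (((app E s qs).take j).flatten).count l
  | [], s, j, l => by simp [app]
  | q :: qs, s, 0, l => by simp
  | q :: qs, s, j + 1, l => by
    simp only [app, List.take_succ_cons, List.flatten_cons, List.count_append]
    have := app_take_count E qs (s + 1) j l
    omega

theorem take_count_le (qs : List (List ℕ)) {i j : ℕ} (hij : i ≤ j) (l : ℕ) :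
    ((qs.take i).flatten).count l ≤ ((qs.take j).flatten).count l := by
  induction qs generalizing i j with
  | nil => simp
  | cons q qs ih =>
    cases i with
    | zero => simp
    | succ i =>
      cases j with
      | zero => omega
      | succ j =>
        simp only [List.take_succ_cons, List.flatten_cons, List.count_append]
        have := ih (i := i) (j := j) (by omega)
        omega

theorem ins_app (L : List ℕ) (g : ℕ → List ℕ) (ξ : ℕ → ℕ → ℕ) : ∀ (qs : List (List ℕ)) (s : ℕ),
    ins L g ξ s qs = (app (fun i => L.flatMap (fun z => pw (ξ i z) (g z))) s qs).flatten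
  | [], _ => rfl
  | q :: qs, s => by
    simp only [ins, app, List.flatten_cons, ins_app L g ξ qs (s + 1)]

theorem app_app (E E' : ℕ → List ℕ) : ∀ (qs : List (List ℕ)) (s : ℕ),
    app E' s (app E s qs) = app (fun i => E i ++ E' i) s qs
  | [], _ => rfl
  | q :: qs, s => by
    simp only [app, app_app E E' qs (s + 1), List.append_assoc]

theorem ok_app (E : ℕ → List ℕ) : ∀ (qs : List (List ℕ)) (s : ℕ) (A A' p p' : List ℕ), Ok A p qs →
    (∀ l, A.count l ≤ A'.count l) → (∀ z ∈ p', z ∈ p ∨ 2 ≤ A'.count z) →
    (∀ i, i < qs.length → ∀ z ∈ E (s + i), 2 ≤ (A' ++ (qs.take (i + 1)).flatten).count z) →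
    Ok A' p' (app E s qs)
  | [], _, _, _, _, _, _, _, _, _ => trivial
  | q :: qs, s, A, A', p, p', h, hA, hp, hE => by
    obtain ⟨h1, h2⟩ := h
    refine ⟨?_, ?_⟩
    · intro z hz
      rcases hp z hz with h3 | h3
      · have h4 := h1 z h3
        have h5 := hA z
        simp only [List.count_append] at h4 ⊢
        omega
      · simp only [List.count_append]
        omega
    · apply ok_app E qs (s + 1) (A ++ q) (A' ++ (q ++ E s)) q (q ++ E s) h2
      · intro l
        have h5 := hA l
        simp only [List.count_append]
        omega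
      · intro z hz
        rcases List.mem_append.1 hz with h3 | h3
        · exact Or.inl h3
        · right
          have h4 := hE 0 (by simp) z (by simpa using h3)
          simp only [List.take_succ_cons, List.take_zero, List.flatten_cons, List.flatten_nil,
            List.count_append, List.count_nil] at h4
          simp only [List.count_append]
          omega
      · intro i hi z hz
        have h4 := hE (i + 1) (by simpa using hi) z
          (by rw [show s + (i + 1) = s + 1 + i by omega]; exact hz)
        simp only [List.take_succ_cons, List.flatten_cons, List.count_append] at h4 ⊢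
        omega

theorem ok_first (E : ℕ → List ℕ) {q : List ℕ} {qs : List (List ℕ)} {A A' W p p' : List ℕ}
    (h : Ok A p (q :: qs)) (hA : ∀ l, A.count l ≤ (A' ++ W).count l)
    (hp : ∀ z ∈ p', 2 ≤ (A' ++ (W ++ q)).count z) (hW : ∀ z ∈ W, 2 ≤ (A' ++ (W ++ q)).count z)
    (hE : ∀ i, i < (q :: qs).length → ∀ z ∈ E i,
      2 ≤ (A' ++ W ++ ((q :: qs).take (i + 1)).flatten).count z) :
    Ok A' p' (app E 0 ((W ++ q) :: qs)) := by
  obtain ⟨h1, h2⟩ := h
  refine ⟨?_, ?_⟩
  · intro z hz
    have := hp z hz
    simp only [List.count_append] at this ⊢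
    omega
  · apply ok_app E qs 1 (A ++ q) (A' ++ (W ++ q ++ E 0)) q (W ++ q ++ E 0) h2
    · intro l
      have h5 := hA l
      simp only [List.count_append] at h5 ⊢
      omega
    · intro z hz
      rcases List.mem_append.1 hz with h3 | h3
      · rcases List.mem_append.1 h3 with h4 | h4
        · right
          have h5 := hW z h4
          simp only [List.count_append] at h5 ⊢
          omega
        · exact Or.inl h4
      · right
        have h5 := hE 0 (by simp) z h3
        simp only [List.take_succ_cons, List.take_zero, List.flatten_cons, List.flatten_nil,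
          List.count_append, List.count_nil] at h5
        simp only [List.count_append]
        omega
    · intro i hi z hz
      have h4 := hE (i + 1) (by simpa using hi) z (by rw [show i + 1 = 1 + i by omega]; exact hz)
      simp only [List.take_succ_cons, List.flatten_cons, List.count_append] at h4 ⊢
      omega

theorem kap (hK : KddStmt) {n : ℕ} {θ : FIC} (h : Kn n θ) (E E' : ℕ → List ℕ) (R : List ℕ)
    (hc : ∀ i l, (E i).count l ≡ (E' i).count l [MOD n]) :
    ∀ (qs : List (List ℕ)) (s : ℕ) (P : List ℕ),
    (∀ i, i < qs.length → ∀ z ∈ E (s + i), 2 ≤ (P ++ (qs.take (i + 1)).flatten).count z) →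
    (∀ i, i < qs.length → ∀ z ∈ E' (s + i), 2 ≤ (P ++ (qs.take (i + 1)).flatten).count z) →
    RR θ (P ++ (app E s qs).flatten ++ R) (P ++ (app E' s qs).flatten ++ R)
  | [], _, _, _, _ => RR.refl _
  | q :: qs, s, P, h1, h2 => by
    have e1 : RR θ ((P ++ q) ++ E s ++ ((app E (s + 1) qs).flatten ++ R))
        ((P ++ q) ++ E' s ++ ((app E (s + 1) qs).flatten ++ R)) := by
      apply hK n θ h
      · intro l hl
        have h4 := h1 0 (by simp) l (by simpa using hl)
        simpa only [List.take_succ_cons, List.take_zero, List.flatten_cons, List.flatten_nil,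
          List.append_nil] using h4
      · intro l hl
        have h4 := h2 0 (by simp) l (by simpa using hl)
        simpa only [List.take_succ_cons, List.take_zero, List.flatten_cons, List.flatten_nil,
          List.append_nil] using h4
      · exact hc s
    have e2 := kap hK h E E' R hc qs (s + 1) (P ++ q ++ E' s)
      (by
        intro i hi z hz
        have h4 := h1 (i + 1) (by simpa using hi) z
          (by rw [show s + (i + 1) = s + 1 + i by omega]; exact hz)
        simp only [List.take_succ_cons, List.flatten_cons, List.count_append] at h4 ⊢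
        omega)
      (by
        intro i hi z hz
        have h4 := h2 (i + 1) (by simpa using hi) z
          (by rw [show s + (i + 1) = s + 1 + i by omega]; exact hz)
        simp only [List.take_succ_cons, List.flatten_cons, List.count_append] at h4 ⊢
        omega)
    simp only [app, List.flatten_cons, List.append_assoc] at e1 e2 ⊢
    exact θ.trans e1 e2

/-! ### the abstract form of the key lemma -/

def Core (θ : FIC) (k m s b b' : ℕ) (a c f : ℕ → ℕ) : Prop :=
  ∀ (X D Y P : List ℕ) (qs : List (List ℕ)) (R : List ℕ), qs.length = m →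
    Ok (P ++ (X ++ D ++ pw s X ++ Y ++ pw b X)) (X ++ Y) qs →
    (k < m → ∀ l ∈ D,
      2 ≤ (P ++ (X ++ D ++ pw s X ++ Y ++ pw b X) ++ (qs.take (k + 1)).flatten).count l) →
    Ok (P ++ (X ++ D ++ Y ++ pw b' X)) (X ++ Y) qs →
    (k < m → ∀ l ∈ D,
      2 ≤ (P ++ (X ++ D ++ Y ++ pw b' X) ++ (qs.take (k + 1)).flatten).count l) →
    RR θ (P ++ (X ++ D ++ pw s X ++ Y ++ pw b X) ++ qs.flatten ++ R)
      (P ++ (X ++ D ++ Y ++ pw b' X) ++
        (app (fun i => pw (a i) X ++ pw (c i) D ++ pw (f i) Y) 0 qs).flatten ++ R)

/-- `P X D X^s C X^b qs R ~ P X D C X^b' q₀ X^(a 0) q₁ X^(a 1) ..` -/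
theorem step1 {θ : FIC} {k m s b b' : ℕ} {a c f : ℕ → ℕ} (hC : Core θ k m s b b' a c f)
    (hs : 1 ≤ s) (hb : 1 ≤ b') (hc : ∀ i < k, c i = 0)
    (P X D C : List ℕ) (qs : List (List ℕ)) (R : List ℕ) (hqs : qs.length = m)
    (hok : Ok (P ++ X ++ D ++ C ++ X) C qs)
    (hD : k < m → ∀ l ∈ D, 2 ≤ (P ++ X ++ D ++ C ++ X ++ (qs.take (k + 1)).flatten).count l) :
    RR θ (P ++ X ++ D ++ pw s X ++ C ++ pw b X ++ qs.flatten ++ R)
      (P ++ X ++ D ++ C ++ pw b' X ++ (app (fun i => pw (a i) X) 0 qs).flatten ++ R) := by
  have cs1 := fun l => le_count_pw hs X l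
  have cb1 := fun l => le_count_pw hb X l
  have hX : ∀ l ∈ X, 1 ≤ X.count l := fun l hl => List.count_pos_iff.2 hl
  -- (A)
  have sA : RR θ (P ++ (X ++ D ++ pw s X ++ C ++ pw b X) ++ qs.flatten ++ R)
      (P ++ (X ++ D ++ C ++ pw b' X) ++
        (app (fun i => pw (a i) X ++ pw (c i) D ++ pw (f i) C) 0 qs).flatten ++ R) := by
    have okk : ∀ A' : List ℕ, (∀ l, (P ++ X ++ D ++ C ++ X).count l ≤ A'.count l) →
        Ok A' (X ++ C) qs := by
      intro A' hA'
      have h1 := ok_app (fun _ => []) qs 0 _ A' C (X ++ C) hok hA' (by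
        intro z hz
        rcases List.mem_append.1 hz with h3 | h3
        · right
          have h4 := hA' z
          have h5 := hX z h3
          simp only [List.count_append] at h4
          omega
        · exact Or.inl h3) (by simp)
      have h2 : ∀ (qs : List (List ℕ)) (s : ℕ), app (fun _ => ([] : List ℕ)) s qs = qs := by
        intro qs
        induction qs with
        | nil => intro s; rfl
        | cons q qs ih => intro s; simp only [app, ih, List.append_nil]
      rwa [h2] at h1
    apply hC X D C P qs R hqs
    · apply okk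
      intro l
      have := cs1 l
      simp only [List.count_append]
      omega
    · intro hlt l hl
      have h1 := hD hlt l hl
      have := cs1 l
      simp only [List.count_append] at h1 ⊢
      omega
    · apply okk
      intro l
      have := cb1 l
      simp only [List.count_append]
      omega
    · intro hlt l hl
      have h1 := hD hlt l hl
      have := cb1 l
      simp only [List.count_append] at h1 ⊢
      omega
  cases qs with
  | nil =>
    simp only [app, List.flatten_nil, List.append_nil, List.append_assoc] at sA ⊢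
    exact sA
  | cons q qs =>
    have hX2 : ∀ l ∈ X, 2 ≤ (P ++ X ++ D ++ (C ++ pw b' X)).count l := by
      intro l hl
      have h1 := hX l hl
      have h2 := cb1 l
      simp only [List.count_append]
      omega
    have hD2 : ∀ i, i < (q :: qs).length → c i ≠ 0 → ∀ l ∈ D,
        2 ≤ (P ++ X ++ D ++ (C ++ pw b' X) ++ ((q :: qs).take (i + 1)).flatten).count l := by
      intro i hi hci l hl
      have hki : k ≤ i := by
        by_contra hcon
        exact hci (hc i (by omega))
      have h1 := hD (by omega) l hl
      have h2 := take_count_le (q :: qs) (show k + 1 ≤ i + 1 by omega) l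
      have h3 := cb1 l
      simp only [List.count_append] at h1 h2 ⊢
      omega
    -- (Y)
    have sY : RR θ (P ++ X ++ D ++ C ++
          (app (fun i => pw (a i) X ++ pw (c i) D) 0 ((pw b' X ++ q) :: qs)).flatten ++ R)
        (P ++ X ++ D ++ C ++ (app (fun i => pw (a i) X ++ pw (c i) D ++ pw (f i) C) 0
          ((pw b' X ++ q) :: qs)).flatten ++ R) := by
      have okY : Ok (P ++ X ++ D ++ C) C
          (app (fun i => pw (a i) X ++ pw (c i) D) 0 ((pw b' X ++ q) :: qs)) := by
        apply ok_first _ hok
        · intro l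
          have := cb1 l
          simp only [List.count_append]
          omega
        · intro z hz
          have h1 := hok.1 z hz
          have := cb1 z
          simp only [List.count_append] at h1 ⊢
          omega
        · intro z hz
          have h1 := hX2 z (mem_pw hz).1
          simp only [List.count_append] at h1 ⊢
          omega
        · intro i hi z hz
          rcases List.mem_append.1 hz with h3 | h3
          · have h1 := hX2 z (mem_pw h3).1
            simp only [List.count_append] at h1 ⊢
            omega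
          · have h1 := hD2 i hi (by have := (mem_pw h3).2; omega) z (mem_pw h3).1
            simp only [List.count_append] at h1 ⊢
            omega
      have h1 := hC [] [] C (P ++ X ++ D)
        (app (fun i => pw (a i) X ++ pw (c i) D) 0 ((pw b' X ++ q) :: qs)) R
        (by rw [app_length]; simpa using hqs)
        (by simpa only [pw_nil, List.nil_append, List.append_nil] using okY)
        (by simp)
        (by simpa only [pw_nil, List.nil_append, List.append_nil] using okY)
        (by simp)
      simpa only [pw_nil, List.nil_append, List.append_nil, app_app] using h1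
    -- (D)
    have sD : RR θ (P ++ X ++ D ++
          (app (fun i => pw (a i) X) 0 ((C ++ pw b' X ++ q) :: qs)).flatten ++ R)
        (P ++ X ++ D ++ (app (fun i => pw (a i) X ++ pw (c i) D) 0
          ((C ++ pw b' X ++ q) :: qs)).flatten ++ R) := by
      have okD : Ok (P ++ X ++ D) []
          (app (fun i => pw (a i) X) 0 ((C ++ pw b' X ++ q) :: qs)) := by
        apply ok_first _ hok
        · intro l
          have := cb1 l
          simp only [List.count_append]
          omega
        · simp
        · intro z hz
          rcases List.mem_append.1 hz with h3 | h3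
          · have h1 := hok.1 z h3
            have := cb1 z
            simp only [List.count_append] at h1 ⊢
            omega
          · have h1 := hX2 z (mem_pw h3).1
            simp only [List.count_append] at h1 ⊢
            omega
        · intro i hi z hz
          have h1 := hX2 z (mem_pw hz).1
          simp only [List.count_append] at h1 ⊢
          omega
      have hDD : k < m → ∀ l ∈ D, 2 ≤ (P ++ X ++ D ++
          ((app (fun i => pw (a i) X) 0 ((C ++ pw b' X ++ q) :: qs)).take (k + 1)).flatten).count
            l := by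
        intro hlt l hl
        have h1 := hD hlt l hl
        have h2 := cb1 l
        have h3 := app_take_count (fun i => pw (a i) X) ((C ++ pw b' X ++ q) :: qs) 0 (k + 1) l
        simp only [List.take_succ_cons, List.flatten_cons, List.count_append] at h1 h3 ⊢
        omega
      have h1 := hC [] D [] (P ++ X)
        (app (fun i => pw (a i) X) 0 ((C ++ pw b' X ++ q) :: qs)) R
        (by rw [app_length]; simpa using hqs)
        (by simpa only [pw_nil, List.nil_append, List.append_nil] using okD)
        (by simpa only [pw_nil, List.nil_append, List.append_nil] using hDD)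
        (by simpa only [pw_nil, List.nil_append, List.append_nil] using okD)
        (by simpa only [pw_nil, List.nil_append, List.append_nil] using hDD)
      simpa only [pw_nil, List.nil_append, List.append_nil, app_app] using h1
    simp only [app, List.flatten_cons, List.append_assoc] at sA sY sD ⊢
    exact θ.trans (θ.trans sA sY.symm) sD.symm

/-- `P X D X^s C X^b qs R ~ P X D C X^(n + s + b) qs R` -/
theorem step2 (hP : KpgStmt) {n : ℕ} {θ : FIC} (hK : Kn n θ) {k m s b b' : ℕ} {a c f : ℕ → ℕ}
    (hC : Core θ k m s b b' a c f) (hs : 1 ≤ s) (hb : 1 ≤ b') (hc : ∀ i < k, c i = 0)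
    (P X D C : List ℕ) (qs : List (List ℕ)) (R : List ℕ) (hqs : qs.length = m)
    (hok : Ok (P ++ X ++ D ++ C ++ X) C qs)
    (hD : k < m → ∀ l ∈ D, 2 ≤ (P ++ X ++ D ++ C ++ X ++ (qs.take (k + 1)).flatten).count l) :
    RR θ (P ++ X ++ D ++ pw s X ++ C ++ pw b X ++ qs.flatten ++ R)
      (P ++ X ++ D ++ C ++ pw (n + s + b) X ++ qs.flatten ++ R) := by
  have h0 := step1 hC hs hb hc P X D C qs R hqs hok hD
  have hn := hK.pos
  have cs1 := fun l => le_count_pw hs X l
  have cb1 := fun l => le_count_pw hb X l
  have okk : ∀ (A' : List ℕ), (∀ l, (P ++ X ++ D ++ C ++ X).count l ≤ A'.count l) →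
      Ok A' X qs := by
    intro A' hA'
    have h1 := ok_app (fun _ => []) qs 0 _ A' C X hok hA' (by
      intro z hz
      right
      have h4 := hA' z
      have h5 : 0 < X.count z := List.count_pos_iff.2 hz
      simp only [List.count_append] at h4
      omega) (by simp)
    have h2 : ∀ (qs : List (List ℕ)) (s : ℕ), app (fun _ => ([] : List ℕ)) s qs = qs := by
      intro qs
      induction qs with
      | nil => intro s; rfl
      | cons q qs ih => intro s; simp only [app, ih, List.append_nil]
    rwa [h2] at h1
  have h1 := hC X [] [] (P ++ X ++ D ++ C ++ pw (n - 1) X) qs R hqs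
    (by
      rw [List.append_nil, List.append_nil]
      apply okk
      intro l
      simp only [List.count_append]
      omega)
    (by simp)
    (by
      simp only [List.append_nil]
      apply okk
      intro l
      simp only [List.count_append]
      omega)
    (by simp)
  have e1 : P ++ X ++ D ++ C ++ pw (n - 1) X ++ (X ++ [] ++ pw s X ++ [] ++ pw b X) =
      P ++ X ++ D ++ C ++ pw (n + s + b) X := by
    have e2 : pw (n - 1) X ++ (X ++ (pw s X ++ pw b X)) = pw (n + s + b) X := by
      rw [← pw_add, ← pw_succ, ← pw_add]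
      congr 1
      omega
    simp only [List.append_nil, List.append_assoc] at e2 ⊢
    rw [e2]
  have e3 : P ++ X ++ D ++ C ++ pw (n - 1) X ++ (X ++ [] ++ [] ++ pw b' X) =
      P ++ X ++ D ++ C ++ pw (n + b') X := by
    have e2 : pw (n - 1) X ++ (X ++ pw b' X) = pw (n + b') X := by
      rw [← pw_succ, ← pw_add]
      congr 1
      omega
    simp only [List.append_nil, List.append_assoc] at e2 ⊢
    rw [e2]
  rw [e1, e3] at h1
  simp only [pw_nil, List.append_nil] at h1
  have h2 := hP n θ hK (P ++ X ++ D ++ C) X ((app (fun i => pw (a i) X) 0 qs).flatten ++ R)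
    (n + b') b' (by intro l hl; simp [hl]) (by omega) hb (by
      unfold Nat.ModEq
      simp)
  simp only [List.append_assoc] at h0 h1 h2 ⊢
  exact θ.trans h0 (θ.trans h2.symm h1.symm)

/-- `P X D X^s C qs R ~ P X D C X^s qs R` -/
theorem step3 (hKd : KddStmt) (hP : KpgStmt) {n : ℕ} {θ : FIC} (hK : Kn n θ) {k m s b b' : ℕ}
    {a c f : ℕ → ℕ} (hC : Core θ k m s b b' a c f) (hs : 1 ≤ s) (hb : 1 ≤ b')
    (hc : ∀ i < k, c i = 0)
    (P X D C : List ℕ) (qs : List (List ℕ)) (R : List ℕ) (hqs : qs.length = m)
    (hok : Ok (P ++ X ++ D ++ C ++ X) C qs)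
    (hD : k < m → ∀ l ∈ D, 2 ≤ (P ++ X ++ D ++ C ++ X ++ (qs.take (k + 1)).flatten).count l) :
    RR θ (P ++ X ++ D ++ pw s X ++ C ++ qs.flatten ++ R)
      (P ++ X ++ D ++ C ++ pw s X ++ qs.flatten ++ R) := by
  have hn := hK.pos
  have cs1 := fun l => le_count_pw hs X l
  have hok' : Ok (P ++ X ++ D ++ (C ++ pw ((n - 1) * b) X) ++ X) (C ++ pw ((n - 1) * b) X) qs := by
    have h1 := ok_app (fun _ => []) qs 0 _ (P ++ X ++ D ++ (C ++ pw ((n - 1) * b) X) ++ X) C
      (C ++ pw ((n - 1) * b) X) hok
      (by intro l; simp only [List.count_append]; omega) (by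
      intro z hz
      rcases List.mem_append.1 hz with h3 | h3
      · exact Or.inl h3
      · right
        have h5 : 0 < X.count z := List.count_pos_iff.2 (mem_pw h3).1
        simp only [List.count_append]
        omega) (by simp)
    have h2 : ∀ (qs : List (List ℕ)) (s : ℕ), app (fun _ => ([] : List ℕ)) s qs = qs := by
      intro qs
      induction qs with
      | nil => intro s; rfl
      | cons q qs ih => intro s; simp only [app, ih, List.append_nil]
    rwa [h2] at h1
  have h0 := step2 hP hK hC hs hb hc P X D (C ++ pw ((n - 1) * b) X) qs R hqs hok' (by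
    intro hlt l hl
    have h1 := hD hlt l hl
    simp only [List.count_append] at h1 ⊢
    omega)
  have hnb : (n - 1) * b + b = n * b := by
    obtain ⟨n', rfl⟩ : ∃ n', n = n' + 1 := ⟨n - 1, by omega⟩
    simp only [Nat.add_sub_cancel]
    ring
  have e1 : P ++ X ++ D ++ pw s X ++ (C ++ pw ((n - 1) * b) X) ++ pw b X ++ qs.flatten ++ R =
      (P ++ X ++ D ++ pw s X ++ C) ++ pw (n * b) X ++ (qs.flatten ++ R) := by
    rw [← hnb, pw_add]
    simp only [List.append_assoc]
  have e2 : P ++ X ++ D ++ (C ++ pw ((n - 1) * b) X) ++ pw (n + s + b) X ++ qs.flatten ++ R =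
      (P ++ X ++ D ++ C) ++ pw (n * b + n + s) X ++ (qs.flatten ++ R) := by
    have e3 : pw (n * b + n + s) X = pw ((n - 1) * b) X ++ pw (n + s + b) X := by
      rw [← pw_add]
      congr 1
      omega
    rw [e3]
    simp only [List.append_assoc]
  rw [e1, e2] at h0
  have h1 : RR θ ((P ++ X ++ D ++ pw s X ++ C) ++ pw (n * b) X ++ (qs.flatten ++ R))
      ((P ++ X ++ D ++ pw s X ++ C) ++ [] ++ (qs.flatten ++ R)) := by
    apply hKd n θ hK
    · intro l hl
      have h5 : 0 < X.count l := List.count_pos_iff.2 (mem_pw hl).1
      have h6 := cs1 l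
      simp only [List.count_append]
      omega
    · simp
    · intro l
      rw [count_pw, List.count_nil]
      unfold Nat.ModEq
      rw [Nat.mul_assoc, Nat.mul_mod_right, Nat.zero_mod]
  have h2 := hP n θ hK (P ++ X ++ D ++ C) X (qs.flatten ++ R) (n * b + n + s) s
    (by intro l hl; simp [hl]) (by omega) hs (by
      unfold Nat.ModEq
      rw [show n * b + n + s = s + n * (b + 1) by ring, Nat.add_mul_mod_self_left])
  simp only [List.append_assoc, List.nil_append] at h0 h1 h2 ⊢
  exact θ.trans h1.symm (θ.trans h0 h2)

theorem step4 (hKd : KddStmt) (hP : KpgStmt) {n : ℕ} {θ : FIC} (hK : Kn n θ) {k m s b b' : ℕ}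
    {a c f : ℕ → ℕ} (hC : Core θ k m s b b' a c f) (hs : 1 ≤ s) (hb : 1 ≤ b')
    (hc : ∀ i < k, c i = 0) (t : ℕ) :
    ∀ (P X D C : List ℕ) (qs : List (List ℕ)) (R : List ℕ), qs.length = m →
    Ok (P ++ X ++ D ++ C ++ X) C qs →
    (k < m → ∀ l ∈ D, 2 ≤ (P ++ X ++ D ++ C ++ X ++ (qs.take (k + 1)).flatten).count l) →
    RR θ (P ++ X ++ D ++ pw (t * s) X ++ C ++ qs.flatten ++ R)
      (P ++ X ++ D ++ C ++ pw (t * s) X ++ qs.flatten ++ R) := by
  induction t with
  | zero =>
    intro P X D C qs R _ _ _
    simp only [Nat.zero_mul, pw_zero, List.append_nil]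
    exact RR.refl _
  | succ t ih =>
    intro P X D C qs R hqs hok hD
    have hX : ∀ l ∈ X, 1 ≤ X.count l := fun l hl => List.count_pos_iff.2 hl
    have h2 : ∀ (qs : List (List ℕ)) (s : ℕ), app (fun _ => ([] : List ℕ)) s qs = qs := by
      intro qs
      induction qs with
      | nil => intro s; rfl
      | cons q qs ih => intro s; simp only [app, ih, List.append_nil]
    have ok1 : Ok (P ++ X ++ (D ++ pw (t * s) X) ++ C ++ X) C qs := by
      have h1 := ok_app (fun _ => []) qs 0 _ (P ++ X ++ (D ++ pw (t * s) X) ++ C ++ X) C C hok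
        (by intro l; simp only [List.count_append]; omega) (fun z hz => Or.inl hz) (by simp)
      rwa [h2] at h1
    have s1 := step3 hKd hP hK hC hs hb hc P X (D ++ pw (t * s) X) C qs R hqs ok1 (by
      intro hlt l hl
      rcases List.mem_append.1 hl with h3 | h3
      · have h1 := hD hlt l h3
        simp only [List.count_append] at h1 ⊢
        omega
      · have h1 := hX l (mem_pw h3).1
        simp only [List.count_append]
        omega)
    have ok2 : Ok (P ++ X ++ D ++ (C ++ pw s X) ++ X) (C ++ pw s X) qs := by
      have h1 := ok_app (fun _ => []) qs 0 _ (P ++ X ++ D ++ (C ++ pw s X) ++ X) C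
        (C ++ pw s X) hok
        (by intro l; simp only [List.count_append]; omega) (by
        intro z hz
        rcases List.mem_append.1 hz with h3 | h3
        · exact Or.inl h3
        · right
          have h5 := hX z (mem_pw h3).1
          simp only [List.count_append]
          omega) (by simp)
      rwa [h2] at h1
    have s2 := ih P X D (C ++ pw s X) qs R hqs ok2 (by
      intro hlt l hl
      have h1 := hD hlt l hl
      simp only [List.count_append] at h1 ⊢
      omega)
    have e1 : pw ((t + 1) * s) X = pw (t * s) X ++ pw s X := by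
      rw [← pw_add]
      congr 1
      ring
    have e2 : pw ((t + 1) * s) X = pw s X ++ pw (t * s) X := by
      rw [← pw_add]
      congr 1
      ring
    have e3 : P ++ X ++ D ++ pw ((t + 1) * s) X ++ C ++ qs.flatten ++ R =
        P ++ X ++ (D ++ pw (t * s) X) ++ pw s X ++ C ++ qs.flatten ++ R := by
      rw [e1]
      simp only [List.append_assoc]
    have e4 : P ++ X ++ D ++ C ++ pw ((t + 1) * s) X ++ qs.flatten ++ R =
        P ++ X ++ D ++ (C ++ pw s X) ++ pw (t * s) X ++ qs.flatten ++ R := by
      rw [e2]
      simp only [List.append_assoc]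
    rw [e3, e4]
    simp only [List.append_assoc] at s1 s2 ⊢
    exact θ.trans s1 s2

/-- the word bit from the abstract key lemma -/
theorem bit (hKd : KddStmt) (hP : KpgStmt) {n : ℕ} {θ : FIC} (hK : Kn n θ) {m e s b b' : ℕ}
    {a c f : ℕ → ℕ} (hem : e ≤ m) (hC : Core θ (m + 1 - e) m s b b' a c f) (hs : 1 ≤ s)
    (hb : 1 ≤ b') (hc : ∀ i < m + 1 - e, c i = 0) : WDn n m e θ := by
  intro P X D C qs R hqs hok hD
  have hn := hK.pos
  have h2 : ∀ (qs : List (List ℕ)) (s : ℕ), app (fun _ => ([] : List ℕ)) s qs = qs := by
    intro qs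
    induction qs with
    | nil => intro s; rfl
    | cons q qs ih => intro s; simp only [app, ih, List.append_nil]
  have ok1 : Ok (P ++ X ++ D ++ C ++ X) C qs := by
    have h1 := ok_app (fun _ => []) qs 0 _ (P ++ X ++ D ++ C ++ X) C C hok
      (by intro l; simp only [List.count_append]; omega) (fun z hz => Or.inl hz) (by simp)
    rwa [h2] at h1
  have hk3 : m + 1 - e + 1 = m + 2 - e := by omega
  have s0 := step4 hKd hP hK hC hs hb hc n P X D C qs R hqs ok1 (by
    intro hlt l hl
    have h1 := hD hlt l hl
    rw [← hk3] at h1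
    simp only [List.count_append] at h1 ⊢
    omega)
  have hns : 1 ≤ n * s := Nat.mul_pos hn hs
  have hmod : n * s ≡ n [MOD n] := by
    unfold Nat.ModEq
    rw [Nat.mul_mod_right, Nat.mod_self]
  have s1 := hP n θ hK (P ++ X ++ D) X (C ++ (qs.flatten ++ R)) (n * s) n
    (by intro l hl; simp [hl]) hns hn hmod
  have s2 := hP n θ hK (P ++ X ++ D ++ C) X (qs.flatten ++ R) (n * s) n
    (by intro l hl; simp [hl]) hns hn hmod
  simp only [List.append_assoc] at s0 s1 s2 ⊢
  exact θ.trans s1.symm (θ.trans s0 s2)

/-! ### positions -/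

theorem filt_rep {F : ℕ → Bool} {x : ℕ} (hx : F x = true) : ∀ l : List ℕ,
    (∀ z ∈ l, F z = true → z = x) → l.filter F = List.replicate (l.count x) x
  | [], _ => by simp
  | z :: l, h => by
    have ih := filt_rep hx l (fun w hw => h w (List.mem_cons_of_mem _ hw))
    by_cases hz : F z = true
    · have h1 := h z (by simp) hz
      subst h1
      rw [List.filter_cons_of_pos hz, ih, List.count_cons_self, List.replicate_succ]
    · have h1 : z ≠ x := by
        rintro rfl
        exact hz hx
      rw [List.filter_cons_of_neg hz, ih, List.count_cons_of_ne h1]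

theorem filt_nil {F : ℕ → Bool} {l : List ℕ} (h : ∀ z ∈ l, F z = true → False) :
    l.filter F = [] := by
  rw [List.filter_eq_nil_iff]
  intro z hz hF
  exact h z hz hF

/-- the word in front of the chain, filtered -/
theorem shape {w : List ℕ} {x d y : ℕ} {cs : List ℕ} {k : ℕ}
    (hyw : y ∈ w) (hc : Chc w [y] cs) (hwd : (pre w d).count x = 1) (hdy : d ∈ pre w y)
    (hxcs : x ∉ cs)
    (h1 : ∀ c, cs[k]? = some c → (pre w c).count d = 1) (h2 : cs[k]? = none → w.count d = 1)
    (hx2 : ∀ c ∈ cs, 2 ≤ (pre w c).count x) (hx3 : 2 ≤ w.count x) :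
    ∃ s b : ℕ, (pre w y).count x = s + 1 ∧ 2 ≤ 1 + s + b ∧
      (hd cs w).filter (fun z => decide (z ∈ [x, d, y] ∨ z ∈ cs)) =
        [x, d] ++ List.replicate s x ++ [y] ++ List.replicate b x ∧
      (∀ c c0, 1 ≤ k → cs[k]? = some c → cs[0]? = some c0 →
        (pre w c).count d = (pre w c0).count d) ∧
      (∀ c0, 1 ≤ k → cs[k]? = none → cs[0]? = some c0 → w.count d = (pre w c0).count d) := by
  -- the common package
  have hpk : (∃ B, hd cs w = pre w y ++ y :: B) ∧ (hd cs w).count y = 1 ∧
      (hd cs w).count d = 1 ∧ (∀ c' ∈ cs, c' ∉ hd cs w) ∧ 2 ≤ (hd cs w).count x := by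
    cases hcs : cs with
    | nil =>
      rw [hcs] at hc h2
      refine ⟨mem_split hyw, hc y (by simp), h2 (by simp), by simp, hx3⟩
    | cons c cs2 =>
      have hcm : c ∈ cs := by rw [hcs]; simp
      have hyc : y ∈ pre w c := hc.mem_pre y (by simp) c hcm
      have hc' := hc
      rw [hcs] at hc'
      refine ⟨pre_mono hyc, hc'.1 y (by simp), ?_, ?_, hx2 c hcm⟩
      · show (pre w c).count d = 1
        have h3 := count_pre_mono hyc d
        have h4 : 0 < (pre w y).count d := List.count_pos_iff.2 hdy
        have h5 : (pre w c).count d ≤ 1 := by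
          rcases hcase : cs[k]? with _ | c'
          · have h3 := h2 hcase
            have h4 := count_pre_le w d c
            omega
          · have h3 := h1 c' hcase
            have hmem := List.mem_of_getElem? hcase
            rw [hcs] at hmem
            rcases List.mem_cons.1 hmem with h4 | h4
            · rw [← h4]
              omega
            · have h5 := Chc.mem_pre hc'.2.2 c (by simp) c' h4
              have h6 := count_pre_mono h5 d
              omega
        omega
      · intro c' hc''
        show c' ∉ pre w c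
        rcases List.mem_cons.1 hc'' with rfl | h4
        · exact not_mem_pre w _
        · exact pre_asymm (Chc.mem_pre hc'.2.2 c (by simp) c' h4)
  obtain ⟨⟨B, hB⟩, hy1, hd1, hcW, hxW⟩ := hpk
  have hyu' := not_mem_pre w y
  have hdy' : d ≠ y := by
    rintro rfl
    exact hyu' hdy
  have hdpos : 0 < (pre w y).count d := List.count_pos_iff.2 hdy
  have hyB : y ∉ B := by
    intro h
    have h3 : 0 < B.count y := List.count_pos_iff.2 h
    rw [hB, List.count_append, List.count_cons_self] at hy1
    omega
  have hdB : (pre w y).count d = 1 ∧ d ∉ B := by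
    rw [hB, List.count_append, List.count_cons_of_ne hdy'.symm] at hd1
    refine ⟨by omega, fun h => ?_⟩
    have h3 : 0 < B.count d := List.count_pos_iff.2 h
    omega
  obtain ⟨U1, U2, C1, eu, hxU1, hxU2, hdU1, hdU2, hdC1, hxd⟩ := H42.split1 hwd hdy hdB.1
  have hxy : x ≠ y := by
    rintro rfl
    apply hyu'
    rw [eu]
    simp
  have hcount : (pre w y).count x = C1.count x + 1 := by
    rw [eu, List.count_append, List.count_append, List.count_cons_self,
      List.count_cons_of_ne hxd.symm, List.count_eq_zero_of_not_mem hxU1,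
      List.count_eq_zero_of_not_mem hxU2]
    omega
  refine ⟨C1.count x, B.count x, hcount, ?_, ?_, ?_, ?_⟩
  · rw [hB, List.count_append, List.count_cons_of_ne hxy.symm, hcount] at hxW
    omega
  · have hFx : (fun z => decide (z ∈ [x, d, y] ∨ z ∈ cs)) x = true := by simp
    have hFc : ∀ z, (fun z => decide (z ∈ [x, d, y] ∨ z ∈ cs)) z = true →
        z = x ∨ z = d ∨ z = y ∨ z ∈ cs := by
      intro z hz
      simp only [List.mem_cons, List.not_mem_nil, or_false, decide_eq_true_eq] at hz
      tauto
    have mW : ∀ z, z ∈ pre w y → z ∈ hd cs w := by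
      intro z hz
      rw [hB]
      exact List.mem_append_left _ hz
    have mB : ∀ z, z ∈ B → z ∈ hd cs w := by
      intro z hz
      rw [hB]
      exact List.mem_append_right _ (List.mem_cons_of_mem _ hz)
    have f1 : U1.filter (fun z => decide (z ∈ [x, d, y] ∨ z ∈ cs)) = [] := by
      apply filt_nil
      intro z hz hF
      have hzw : z ∈ pre w y := by rw [eu]; simp [hz]
      rcases hFc z hF with rfl | rfl | rfl | h3
      · exact hxU1 hz
      · exact hdU1 hz
      · exact hyu' hzw
      · exact hcW z h3 (mW z hzw)
    have f2 : U2.filter (fun z => decide (z ∈ [x, d, y] ∨ z ∈ cs)) = [] := by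
      apply filt_nil
      intro z hz hF
      have hzw : z ∈ pre w y := by rw [eu]; simp [hz]
      rcases hFc z hF with rfl | rfl | rfl | h3
      · exact hxU2 hz
      · exact hdU2 hz
      · exact hyu' hzw
      · exact hcW z h3 (mW z hzw)
    have f3 : C1.filter (fun z => decide (z ∈ [x, d, y] ∨ z ∈ cs)) =
        List.replicate (C1.count x) x := by
      apply filt_rep hFx
      intro z hz hF
      have hzw : z ∈ pre w y := by rw [eu]; simp [hz]
      rcases hFc z hF with h3 | rfl | rfl | h3
      · exact h3
      · exact (hdC1 hz).elim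
      · exact (hyu' hzw).elim
      · exact (hcW z h3 (mW z hzw)).elim
    have f4 : B.filter (fun z => decide (z ∈ [x, d, y] ∨ z ∈ cs)) =
        List.replicate (B.count x) x := by
      apply filt_rep hFx
      intro z hz hF
      rcases hFc z hF with h3 | rfl | rfl | h3
      · exact h3
      · exact (hdB.2 hz).elim
      · exact (hyB hz).elim
      · exact (hcW z h3 (mB z hz)).elim
    rw [hB, eu, List.filter_append, List.filter_append, List.filter_append, f1,
      List.filter_cons_of_pos (by simp), f2, List.filter_cons_of_pos (by simp), f3,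
      List.filter_cons_of_pos (by simp), f4]
    simp only [List.nil_append, List.append_assoc, List.cons_append]
  · intro c c0 _ hcc hc0
    have h3 : hd cs w = pre w c0 := by
      cases hcs : cs with
      | nil => rw [hcs] at hc0; simp at hc0
      | cons c' cs2 =>
        rw [hcs] at hc0
        simp only [List.getElem?_cons_zero, Option.some.injEq] at hc0
        rw [← hc0]
        rfl
    rw [h1 c hcc, ← h3, hd1]
  · intro c0 _ hcc hc0
    have h3 : hd cs w = pre w c0 := by
      cases hcs : cs with
      | nil => rw [hcs] at hc0; simp at hc0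
      | cons c' cs2 =>
        rw [hcs] at hc0
        simp only [List.getElem?_cons_zero, Option.some.injEq] at hc0
        rw [← hc0]
        rfl
    rw [h2 hcc, ← h3, hd1]

theorem dbt (hKd : KddStmt) (hP : KpgStmt) (_hI : KitStmt) (hS : SpfStmt) (hU : PurStmt) :
    DbtStmt := by
  intro n θ hK m e u v x d y cs hem huv hlen hud hvd hduy hdvy hxu hxv hyu hyv hcu hcv hcs hvx
    hk1 hk2
  have hxcs : x ∉ cs := by
    intro h
    have h1 := hcs x h
    rw [List.count_eq_zero_of_not_mem (not_mem_pre v x)] at h1
    omega
  have hdcs : d ∉ cs := fun h => pre_asymm (hcu.mem_pre y (by simp) d h) hduy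
  have hycs : y ∉ cs := hcu.not_mem (by simp)
  have hxd : x ≠ d := by
    rintro rfl
    exact not_mem_pre u x (mem_pre_of_count hud)
  have hdy : d ≠ y := by
    rintro rfl
    exact not_mem_pre u d hduy
  have hxy : x ≠ y := by
    rintro rfl
    exact not_mem_pre v x (mem_pre_of_count hxv)
  have hnd : [x, d, y].Nodup := by
    simp [hxd, hdy, hxy]
  obtain ⟨s, b, hs1, _, hu', hu1, hu2⟩ := shape hyu hcu hud hduy hxcs
    (fun c h => (hk1 c h).1) (fun h => (hk2 h).1)
    (fun c hc => hxu.trans (count_pre_mono (hcu.mem_pre y (by simp) c hc) x))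
    (hxu.trans (count_pre_le u x y))
  obtain ⟨s', b', hs2, hb', hv', hv1, hv2⟩ := shape hyv hcv hvd hdvy hxcs
    (fun c h => (hk1 c h).2) (fun h => (hk2 h).2) hcs hvx
  have hs0 : s' = 0 := by omega
  subst hs0
  have hLcs : ∀ z ∈ [x, d, y], z ∉ cs := by
    intro z hz
    simp only [List.mem_cons, List.not_mem_nil, or_false] at hz
    rcases hz with rfl | rfl | rfl
    · exact hxcs
    · exact hdcs
    · exact hycs
  obtain ⟨pu1, pu2⟩ := hS d (m + 1 - e) [x, d, y] cs [y] u hLcs hcu hu1 hu2
  obtain ⟨pv1, pv2⟩ := hS d (m + 1 - e) [x, d, y] cs [y] v hLcs hcv hv1 hv2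
  obtain ⟨ξ, hξ, hpur⟩ := hU n θ hK d cs (m + 1 - e) [x, d, y] _ _ (by simp) hnd pu1 pv1
    (huv.filter (fun z => decide (z ∈ [x, d, y] ∨ z ∈ cs)))
  rw [pu2, pv2, hu', hv'] at hpur
  have hcore : Core θ (m + 1 - e) m s b b' (fun i => ξ i x) (fun i => ξ i d)
      (fun i => ξ i y) := by
    intro X D Y P qs R hqs ok1 dd1 ok2 dd2
    set g : ℕ → List ℕ := fun z => if z = x then X else if z = d then D else if z = y then Y
      else [] with hg
    have gx : g x = X := by simp [hg]
    have gd : g d = D := by simp [hg, hxd.symm]
    have gy : g y = Y := by simp [hg, hxy.symm, hdy.symm]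
    have e1 : ([x, d] ++ List.replicate s x ++ [y] ++ List.replicate b x).flatMap g =
        X ++ D ++ pw s X ++ Y ++ pw b X := by
      simp only [List.flatMap_append, List.flatMap_cons, List.flatMap_nil, flatMap_rep, gx, gd,
        gy, List.append_nil]
    have e2 : ([x, d] ++ List.replicate 0 x ++ [y] ++ List.replicate b' x).flatMap g =
        X ++ D ++ Y ++ pw b' X := by
      simp only [List.flatMap_append, List.flatMap_cons, List.flatMap_nil, flatMap_rep, gx, gd,
        gy, List.append_nil, pw_zero]
    have e3 : ([x, d, y].filter (fun z => decide (z ≠ d))).flatMap g = X ++ Y := by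
      have e4 : [x, d, y].filter (fun z => decide (z ≠ d)) = [x, y] := by
        simp [hxd, hdy.symm]
      rw [e4]
      simp only [List.flatMap_cons, List.flatMap_nil, gx, gy, List.append_nil]
    have h1 := hpur g P qs R (by rw [hqs, hlen])
      (by
        refine ⟨?_, ?_⟩
        · rw [e1, e3]
          exact ok1
        · rw [e1, gd, hqs]
          exact dd1)
      (by
        refine ⟨?_, ?_⟩
        · rw [e2, e3]
          exact ok2
        · rw [e2, gd, hqs]
          exact dd2)
    rw [e1, e2, ins_app] at h1
    simpa only [List.flatMap_cons, List.flatMap_nil, gx, gd, gy, List.append_nil,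
      List.append_assoc] using h1
  exact bit hKd hP hK hem hcore (by omega) (by omega) hξ

end Pool.Agent.MWKP.H32
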